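import Pool.Agent.Q152.QT.StmU

/-!
# Project QT (helper152): job QU2 (change of the window length in a distribution function)
-/

set_option autoImplicit false

namespace Pool.Agent.Q24.QT

open Finset Pool.Agent.Q152.QT
open Pool.Agent.Q163.GC (W)

lemma W_add (f : ℕ → ℝ) (x a b : ℕ) : W f x (a + b) = W f x a + W f (x + a) b := by
  unfold W
  rw [sum_range_add]
  congr 1
  refine sum_congr rfl fun j _ => ?_
  congr 1
  ring

/-- comparison of two counting functions outside of a small set -/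
lemma count_le (N : ℕ) (hN : 1 ≤ N) (P Q E : ℕ → Prop) [DecidablePred P] [DecidablePred Q] [DecidablePred E]
    (ε : ℝ) (hE : (((Ico N (2 * N)).filter E).card : ℝ) ≤ ε * N)
    (h : ∀ x, ¬ E x → P x → Q x) :
    (((Ico N (2 * N)).filter P).card : ℝ) / N ≤ (((Ico N (2 * N)).filter Q).card : ℝ) / N + ε := by
  have hN0 : (0 : ℝ) < N := by exact_mod_cast hN
  have h1 : (Ico N (2 * N)).filter P ⊆ (Ico N (2 * N)).filter Q ∪ (Ico N (2 * N)).filter E := by
    intro x hx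
    rw [mem_filter] at hx
    rw [mem_union, mem_filter, mem_filter]
    by_cases he : E x
    · exact Or.inr ⟨hx.1, he⟩
    · exact Or.inl ⟨hx.1, h x he hx.2⟩
  have h2 := (card_le_card h1).trans (card_union_le _ _)
  have h3 : (((Ico N (2 * N)).filter P).card : ℝ) ≤
      (((Ico N (2 * N)).filter Q).card : ℝ) + (((Ico N (2 * N)).filter E).card : ℝ) := by
    exact_mod_cast h2
  rw [div_add' _ _ _ hN0.ne']
  exact div_le_div_of_nonneg_right (by linarith) hN0.le

theorem t_CompH : S_CompH := by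
  classical
  intro δ hδ
  obtain ⟨δ1, hδ1, hδ1', hPhi⟩ := Q282LT.Phi_affine (δ / 2) (by positivity)
  obtain ⟨q, hq⟩ := exists_nat_ge (1 / δ1)
  have hq0 : (0 : ℝ) < q := lt_of_lt_of_le (by positivity) hq
  have hq1 : 1 ≤ q := by exact_mod_cast hq0
  obtain ⟨κ, hκ⟩ : ∃ κ : ℝ, κ = 6 / Real.pi ^ 2 := ⟨_, rfl⟩
  have hκ0 : 0 < κ := by
    rw [hκ]
    positivity
  refine ⟨q, δ / 2 * δ1 ^ 2 * κ, hq1, by positivity, ?_⟩
  intro f N h' L hN hh' hqL hsum hF t
  have hN0 : (0 : ℝ) < N := by exact_mod_cast hN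
  have hh0 : (0 : ℝ) < h' := by exact_mod_cast hh'
  have hL0 : (0 : ℝ) ≤ L := by positivity
  obtain ⟨σ', hσ'⟩ : ∃ σ' : ℝ, σ' = √(κ * h') := ⟨_, rfl⟩
  have hσ0 : 0 < σ' := by
    rw [hσ']
    exact Real.sqrt_pos.2 (by positivity)
  have hσsq : σ' ^ 2 = κ * h' := by
    rw [hσ']
    exact Real.sq_sqrt (by positivity)
  obtain ⟨r, hr⟩ : ∃ r : ℝ, r = √(((h' : ℝ) + L) / h') := ⟨_, rfl⟩
  have hr0 : 0 ≤ r := by
    rw [hr]
    positivity
  have hrsq : r ^ 2 = ((h' : ℝ) + L) / h' := by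
    rw [hr]
    exact Real.sq_sqrt (by positivity)
  have hrσ : √(κ * ((h' + L : ℕ) : ℝ)) = r * σ' := by
    rw [hr, hσ', ← Real.sqrt_mul (by positivity)]
    congr 1
    push_cast
    field_simp
  have hrb : |r - 1| ≤ δ1 := by
    have h1 : 1 ≤ r ^ 2 := by
      rw [hrsq, le_div_iff₀ hh0]
      linarith
    have h2 : r ^ 2 ≤ 1 + δ1 := by
      rw [hrsq, div_le_iff₀ hh0]
      have h3 : (q : ℝ) * L ≤ h' := by exact_mod_cast hqL
      have h4 : (L : ℝ) ≤ δ1 * h' := by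
        have h5 : 1 ≤ q * δ1 := by
          rwa [div_le_iff₀ hδ1] at hq
        nlinarith
      linarith
    have h3 : 1 ≤ r := by
      by_contra hcon
      push Not at hcon
      nlinarith
    have h4 : r ≤ 1 + δ1 := by
      nlinarith
    rw [abs_le]
    constructor <;> linarith
  -- the exceptional set
  obtain ⟨E, hE⟩ : ∃ E : ℕ → Prop, E = fun x => δ1 * σ' < |W f (x + h') L| := ⟨_, rfl⟩
  have hEc : (((Ico N (2 * N)).filter E).card : ℝ) ≤ δ / 2 * N := by
    have h1 : (((Ico N (2 * N)).filter E).card : ℝ) * (δ1 * σ') ^ 2 ≤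
        ∑ x ∈ Ico N (2 * N), W f (x + h') L ^ 2 := by
      have h2 : ∑ x ∈ (Ico N (2 * N)).filter E, W f (x + h') L ^ 2 ≤
          ∑ x ∈ Ico N (2 * N), W f (x + h') L ^ 2 :=
        sum_le_sum_of_subset_of_nonneg (filter_subset _ _) fun _ _ _ => sq_nonneg _
      refine le_trans ?_ h2
      rw [← nsmul_eq_mul]
      refine card_nsmul_le_sum _ _ _ ?_
      intro x hx
      have h3 := (mem_filter.1 hx).2
      rw [hE] at h3
      have h4 : δ1 * σ' < |W f (x + h') L| := h3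
      rw [← sq_abs (W f (x + h') L)]
      exact pow_le_pow_left₀ (by positivity) h4.le 2
    have h5 := h1.trans hsum
    have h6 : (δ1 * σ') ^ 2 = δ1 ^ 2 * (κ * h') := by
      rw [mul_pow, hσsq]
    rw [h6] at h5
    have h7 : 0 < δ1 ^ 2 * (κ * h') := by positivity
    refine le_of_mul_le_mul_right ?_ h7
    calc (((Ico N (2 * N)).filter E).card : ℝ) * (δ1 ^ 2 * (κ * h')) ≤
          δ / 2 * δ1 ^ 2 * κ * h' * N := h5
      _ = δ / 2 * N * (δ1 ^ 2 * (κ * h')) := by ring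
  have hEn : ∀ x, ¬ E x → |W f (x + h') L| ≤ δ1 * σ' := by
    intro x hx
    rw [hE] at hx
    exact not_lt.1 hx
  have key1 : Fc f N (h' + L) t ≤ Fc f N h' (r * t + δ1) + δ / 2 := by
    unfold Fc
    refine count_le N hN _ _ E (δ / 2) hEc ?_
    intro x hx h1
    rw [← hκ, hrσ, W_add] at h1
    rw [← hκ, ← hσ']
    have h2 := (abs_le.1 (hEn x hx)).1
    nlinarith
  have key2 : Fc f N h' (r * t + -δ1) ≤ Fc f N (h' + L) t + δ / 2 := by
    unfold Fc
    refine count_le N hN _ _ E (δ / 2) hEc ?_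
    intro x hx h1
    rw [← hκ, ← hσ'] at h1
    rw [← hκ, hrσ, W_add]
    have h2 := (abs_le.1 (hEn x hx)).2
    nlinarith
  have f1 := abs_le.1 (hF (r * t + δ1))
  have f2 := abs_le.1 (hF (r * t + -δ1))
  have g1 := abs_le.1 (hPhi r δ1 t hrb (by rw [abs_of_pos hδ1]))
  have g2 := abs_le.1 (hPhi r (-δ1) t hrb (by rw [abs_neg, abs_of_pos hδ1]))
  rw [abs_le]
  constructor <;> linarith [f1.1, f1.2, f2.1, f2.2, g1.1, g1.2, g2.1, g2.2]

end Pool.Agent.Q24.QT
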